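import Pool.Agent.X90.DE.Cmp

/-!
# Counting words with several large letters
-/

set_option autoImplicit false

namespace Pool.Agent.K6.H8.MZ

open Finset
open Pool.Agent.X90.DB (Ad)
open Pool.Agent.X90.DE (rs mem_rs card_rs ad mem_ad card_ad na)

/-- the pairs of a number and a word of positive numbers, of total weight `j` -/
def bs (j : ℕ) : Finset (ℕ × List ℕ) := (rs j).image fun r => (j - r.sum, r)

lemma mem_bs {j : ℕ} {x : ℕ × List ℕ} : x ∈ bs j ↔ (∀ t ∈ x.2, 1 ≤ t) ∧ x.1 + x.2.sum = j := by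
  rw [bs, mem_image]
  constructor
  · rintro ⟨r, hr, rfl⟩
    rw [mem_rs] at hr
    exact ⟨hr.1, by simp only; omega⟩
  · rintro ⟨h1, h2⟩
    refine ⟨x.2, mem_rs.2 ⟨h1, by omega⟩, ?_⟩
    exact Prod.ext (by simp only; omega) rfl

lemma card_bs (j : ℕ) : (bs j).card = 2 ^ j := by
  rw [bs, card_image_of_injective, card_rs]
  intro r r' h
  exact congrArg Prod.snd h

/-- the total weight -/
def tot {m : ℕ} (e : Fin m → ℕ × List ℕ) : ℕ := ∑ i, ((e i).1 + (e i).2.sum)

/-- the tuples of total weight `w` -/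
def VF (m w : ℕ) : Finset (Fin m → ℕ × List ℕ) :=
  (piAntidiag (univ : Finset (Fin m)) w).biUnion fun j => Fintype.piFinset fun i => bs (j i)

lemma mem_VF {m w : ℕ} {e : Fin m → ℕ × List ℕ} :
    e ∈ VF m w ↔ (∀ i, ∀ t ∈ (e i).2, 1 ≤ t) ∧ tot e = w := by
  rw [VF, mem_biUnion]
  constructor
  · rintro ⟨j, hj, he⟩
    rw [mem_piAntidiag] at hj
    rw [Fintype.mem_piFinset] at he
    refine ⟨fun i => (mem_bs.1 (he i)).1, ?_⟩
    rw [tot, ← hj.1]
    exact sum_congr rfl fun i _ => (mem_bs.1 (he i)).2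
  · rintro ⟨h1, h2⟩
    refine ⟨fun i => (e i).1 + (e i).2.sum, ?_, ?_⟩
    · rw [mem_piAntidiag]
      exact ⟨h2, fun i _ => mem_univ i⟩
    · rw [Fintype.mem_piFinset]
      exact fun i => mem_bs.2 ⟨h1 i, rfl⟩

/-- the number of tuples -/
def cV (m w : ℕ) : ℕ := 2 ^ w * (m + w - 1).choose w

lemma card_VF (m w : ℕ) : (VF m w).card = cV m w := by
  have h0 : (piAntidiag (univ : Finset (Fin m)) w).card = (m + w - 1).choose w := by
    have h1 := card_finsuppAntidiag_nat_eq_choose (s := (univ : Finset (Fin m))) w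
    rw [card_univ, Fintype.card_fin] at h1
    rw [← h1, finsuppAntidiag, card_map, card_attach]
  rw [VF, card_biUnion]
  · have h2 : ∀ j ∈ piAntidiag (univ : Finset (Fin m)) w,
        (Fintype.piFinset fun i => bs (j i)).card = 2 ^ w := by
      intro j hj
      rw [mem_piAntidiag] at hj
      rw [Fintype.card_piFinset]
      simp only [card_bs]
      rw [prod_pow_eq_pow_sum, hj.1]
    rw [sum_congr rfl h2, sum_const, h0, smul_eq_mul, cV, mul_comm]
  · intro j _ j' _ hjj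
    simp only [Function.onFun]
    rw [disjoint_left]
    intro e h1 h2
    rw [Fintype.mem_piFinset] at h1 h2
    apply hjj
    funext i
    rw [← (mem_bs.1 (h1 i)).2, (mem_bs.1 (h2 i)).2]

/-- the pairs of an admissible word and a tuple, of total weight `W` -/
noncomputable def IF (m W : ℕ) : Finset (List ℕ × (Fin m → ℕ × List ℕ)) :=
  (range (W + 1)).biUnion fun n => ad n ×ˢ VF m (W - n)

lemma mem_IF {m W : ℕ} {i : List ℕ × (Fin m → ℕ × List ℕ)} : i ∈ IF m W ↔
    (i.1 = [] ∨ Ad i.1) ∧ (∀ j, ∀ t ∈ (i.2 j).2, 1 ≤ t) ∧ i.1.sum + tot i.2 = W := by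
  rw [IF, mem_biUnion]
  constructor
  · rintro ⟨n, hn, h⟩
    rw [mem_range] at hn
    rw [mem_product, mem_ad, mem_VF] at h
    exact ⟨h.1.1, h.2.1, by omega⟩
  · rintro ⟨h1, h2, h3⟩
    exact ⟨i.1.sum, mem_range.2 (by omega), mem_product.2 ⟨mem_ad.2 ⟨h1, rfl⟩,
      mem_VF.2 ⟨h2, by omega⟩⟩⟩

lemma card_IF (m W : ℕ) : (IF m W).card = ∑ n ∈ range (W + 1), cV m (W - n) * na n := by
  rw [IF, card_biUnion]
  · refine sum_congr rfl fun n _ => ?_
    rw [card_product, card_ad, card_VF, mul_comm]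
  · intro i _ j _ hij
    simp only [Function.onFun]
    rw [disjoint_left]
    intro r h1 h2
    rw [mem_product, mem_ad] at h1 h2
    exact hij (h1.1.2.symm.trans h2.1.2)

/-- the tuples of total weight at most `W` -/
def XF (m W : ℕ) : Finset (Fin m → ℕ × List ℕ) :=
  (range (W + 1)).biUnion fun n => VF m (W - n)

lemma mem_XF {m W : ℕ} {e : Fin m → ℕ × List ℕ} :
    e ∈ XF m W ↔ (∀ i, ∀ t ∈ (e i).2, 1 ≤ t) ∧ tot e ≤ W := by
  rw [XF, mem_biUnion]
  constructor
  · rintro ⟨n, hn, h⟩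
    rw [mem_range] at hn
    rw [mem_VF] at h
    exact ⟨h.1, by omega⟩
  · rintro ⟨h1, h2⟩
    exact ⟨W - tot e, mem_range.2 (by omega), mem_VF.2 ⟨h1, by omega⟩⟩

lemma sum_XF (m W : ℕ) (f : ℕ → ℕ) : ∑ e ∈ XF m W, f (W - tot e) =
    ∑ n ∈ range (W + 1), cV m (W - n) * f n := by
  rw [XF, sum_biUnion]
  · refine sum_congr rfl fun n hn => ?_
    rw [mem_range] at hn
    have h1 : ∀ e ∈ VF m (W - n), f (W - tot e) = f n := by
      intro e he
      rw [(mem_VF.1 he).2]
      congr 1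
      omega
    rw [sum_congr rfl h1, sum_const, card_VF, smul_eq_mul]
  · intro i hi j hj hij
    simp only [Function.onFun]
    rw [disjoint_left]
    intro r h1 h2
    rw [mem_coe, mem_range] at hi hj
    rw [mem_VF] at h1 h2
    have := h1.2.symm.trans h2.2
    exact hij (by omega)

end Pool.Agent.K6.H8.MZ
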