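import Pool.Agent.K6.H8.MZ.Lin
import Pool.Agent.K6.H8.MZ.Cnt
import Pool.Agent.X90.DE.Main

/-!
# Words with several large letters
-/

set_option autoImplicit false

namespace Pool.Agent.K6.H8.MZ

open Finset
open Pool.Agent.Y760.ZG (mz)
open Pool.Agent.Y760.ZF (sti)
open Pool.Agent.X90.DB (Ad ix ex ex_nil ex_ne)
open Pool.Agent.X90.DC
open Pool.Agent.X90.DD
open Pool.Agent.X90.DE (fpx_fp split_inj le_of_mem_sum)

/-- the patterns -/
def vp {k m : ℕ} (c : Fin m → Fin k → ℕ) (is : List (Fin m)) (e : Fin m → ℕ × List ℕ) :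
    List (Lr k) :=
  is.flatMap fun i => ((e i).1, c i) :: fp (e i).2

/-- the words -/
def vw {m : ℕ} (L : Fin m → ℕ) (is : List (Fin m)) (e : Fin m → ℕ × List ℕ) : List ℕ :=
  is.flatMap fun i => ((e i).1 + L i) :: (e i).2

/-- the linear forms -/
def lf {k m : ℕ} (c : Fin m → Fin k → ℕ) (s : Fin k → ℕ) (i : Fin m) : ℕ := ∑ j, c i j * s j

lemma lf_ge {k m : ℕ} {c : Fin m → Fin k → ℕ} (hc : ∀ i, c i ≠ 0) {s : Fin k → ℕ} {N : ℕ}
    (hs : ∀ j, N ≤ s j) (i : Fin m) : N ≤ lf c s i := by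
  obtain ⟨j, hj⟩ : ∃ j, c i j ≠ 0 := by
    by_contra hcon
    push Not at hcon
    exact hc i (funext hcon)
  have h1 : c i j * s j ≤ lf c s i :=
    single_le_sum (f := fun j => c i j * s j) (fun _ _ => Nat.zero_le _) (mem_univ j)
  have h2 : s j ≤ c i j * s j := Nat.le_mul_of_pos_left _ (Nat.pos_of_ne_zero hj)
  exact (hs j).trans (h2.trans h1)

lemma vp_cons {k m : ℕ} (c : Fin m → Fin k → ℕ) (i : Fin m) (is : List (Fin m))
    (e : Fin m → ℕ × List ℕ) :
    vp c (i :: is) e = ((e i).1, c i) :: (fp (e i).2 ++ vp c is e) := by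
  rw [vp, List.flatMap_cons, List.cons_append]
  rfl

lemma vw_cons {m : ℕ} (L : Fin m → ℕ) (i : Fin m) (is : List (Fin m)) (e : Fin m → ℕ × List ℕ) :
    vw L (i :: is) e = ((e i).1 + L i) :: ((e i).2 ++ vw L is e) := by
  rw [vw, List.flatMap_cons, List.cons_append]
  rfl

lemma ix_vp {k m : ℕ} (c : Fin m → Fin k → ℕ) (s : Fin k → ℕ) (is : List (Fin m))
    (e : Fin m → ℕ × List ℕ) : ix s (vp c is e) = vw (lf c s) is e := by
  induction is with
  | nil => rfl
  | cons i is ih =>
    rw [vp_cons, vw_cons, ix_cons, ix_append, ix_fp, ih]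
    rfl

lemma vw_sum {m : ℕ} (L : Fin m → ℕ) (is : List (Fin m)) (e : Fin m → ℕ × List ℕ) :
    (vw L is e).sum = (is.map fun i => (e i).1 + (e i).2.sum + L i).sum := by
  induction is with
  | nil => rfl
  | cons i is ih =>
    rw [vw_cons, List.sum_cons, List.sum_append, ih, List.map_cons, List.sum_cons]
    ring

lemma vw_sum' {m : ℕ} (L : Fin m → ℕ) (e : Fin m → ℕ × List ℕ) :
    (vw L (List.finRange m) e).sum = tot e + ∑ i, L i := by
  rw [vw_sum, ← Fin.sum_univ_def, tot, sum_add_distrib]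

lemma vp_congr {k m : ℕ} (c : Fin m → Fin k → ℕ) {is : List (Fin m)} {e e' : Fin m → ℕ × List ℕ}
    (h : ∀ i ∈ is, e i = e' i) : vp c is e = vp c is e' := by
  induction is with
  | nil => rfl
  | cons i is ih =>
    rw [vp_cons, vp_cons, ih fun j hj => h j (List.mem_cons_of_mem _ hj), h i List.mem_cons_self]

lemma vw_congr {m : ℕ} (L : Fin m → ℕ) {is : List (Fin m)} {e e' : Fin m → ℕ × List ℕ}
    (h : ∀ i ∈ is, e i = e' i) : vw L is e = vw L is e' := by
  induction is with
  | nil => rfl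
  | cons i is ih =>
    rw [vw_cons, vw_cons, ih fun j hj => h j (List.mem_cons_of_mem _ hj), h i List.mem_cons_self]

lemma sk_vp {k m : ℕ} {c : Fin m → Fin k → ℕ} (hc : ∀ i, c i ≠ 0) (is : List (Fin m))
    (e : Fin m → ℕ × List ℕ) : sk (vp c is e) = is.map c := by
  induction is with
  | nil => rfl
  | cons i is ih =>
    rw [vp_cons, sk, if_neg (hc i), sk_append, sk_fp, List.nil_append, ih, List.map_cons]

/-- **the structure of the good patterns with given vectors of coefficients** -/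
lemma struct {k m : ℕ} {c : Fin m → Fin k → ℕ} (is : List (Fin m)) :
    is.Nodup → ∀ v : List (Lr k), Gd v → sk v = is.map c →
      ∃ e : Fin m → ℕ × List ℕ, (∀ i, ∀ t ∈ (e i).2, 1 ≤ t) ∧ v = vp c is e := by
  classical
  induction is with
  | nil =>
    intro _ v hv hsk
    refine ⟨fun _ => (0, []), fun i t ht => absurd ht List.not_mem_nil, ?_⟩
    cases v with
    | nil => rfl
    | cons u v =>
      rw [sk, if_neg (hv.1 u (by simp))] at hsk
      exact absurd hsk (List.cons_ne_nil _ _)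
  | cons i is ih =>
    intro hnd v hv hsk
    rw [List.nodup_cons] at hnd
    cases v with
    | nil => exact absurd hsk.symm (List.cons_ne_nil _ _)
    | cons u v =>
      rw [sk, if_neg (hv.1 u (by simp)), List.map_cons, List.cons.injEq] at hsk
      have hv' : ∀ a ∈ v, a.2 ≠ 0 ∨ 1 ≤ a.1 := fun a ha => hv.2 a (List.mem_cons_of_mem _ ha)
      obtain ⟨v', h1, h2⟩ := exists_prefix2 v hv'
      have h3 : sk v' = is.map c := by
        rw [← hsk.2]
        conv_rhs => rw [h2, sk_append, sk_fp, List.nil_append]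
      obtain ⟨e', h4, h5⟩ := ih hnd.2 v' h1 h3
      have hfp : ∀ t ∈ fpx v, 1 ≤ t := by
        intro t ht
        have h6 : ((t, 0) : Lr k) ∈ v := by
          rw [h2, List.mem_append, fp, List.mem_map]
          exact Or.inl ⟨t, ht, rfl⟩
        exact (hv' _ h6).resolve_left fun h => h rfl
      refine ⟨Function.update e' i (u.1, fpx v), fun j t ht => ?_, ?_⟩
      · by_cases hj : j = i
        · subst hj
          rw [Function.update_self] at ht
          exact hfp t ht
        · rw [Function.update_of_ne hj] at ht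
          exact h4 j t ht
      · rw [vp_cons, Function.update_self]
        have h6 : vp c is (Function.update e' i (u.1, fpx v)) = vp c is e' := by
          refine vp_congr c fun j hj => Function.update_of_ne ?_ _ _
          rintro rfl
          exact hnd.1 hj
        rw [h6, ← h5, ← h2, ← hsk.1]

/-- a word determines its parts -/
lemma split_word {m W : ℕ} {L : Fin m → ℕ} (hL : ∀ i, W < L i) {e e' : Fin m → ℕ × List ℕ}
    (he : ∀ i, ∀ t ∈ (e i).2, t ≤ W) (he' : ∀ i, ∀ t ∈ (e' i).2, t ≤ W) (is : List (Fin m)) :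
    ∀ p p' : List ℕ, (∀ t ∈ p, t ≤ W) → (∀ t ∈ p', t ≤ W) →
      p ++ vw L is e = p' ++ vw L is e' → p = p' ∧ ∀ i ∈ is, e i = e' i := by
  induction is with
  | nil =>
    intro p p' _ _ h
    have h1 : ∀ e : Fin m → ℕ × List ℕ, vw L [] e = [] := fun _ => rfl
    rw [h1, h1, List.append_nil, List.append_nil] at h
    exact ⟨h, fun i hi => absurd hi List.not_mem_nil⟩
  | cons i is ih =>
    intro p p' hp hp' h
    rw [vw_cons, vw_cons] at h
    have h1 := hL i
    obtain ⟨g1, g2, g3⟩ := split_inj W p p' _ _ _ _ hp hp' (by omega) (by omega) h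
    obtain ⟨g4, g5⟩ := ih _ _ (he i) (he' i) g3
    refine ⟨g1, fun j hj => ?_⟩
    rcases List.mem_cons.1 hj with rfl | hj
    · exact Prod.ext (by omega) g4
    · exact g5 j hj

/-- the word of a pair -/
def wdL {m : ℕ} (L : Fin m → ℕ) (i : List ℕ × (Fin m → ℕ × List ℕ)) : List ℕ :=
  i.1 ++ vw L (List.finRange m) i.2

/-- the pattern of a pair -/
def pt {k m : ℕ} (c : Fin m → Fin k → ℕ) (i : List ℕ × (Fin m → ℕ × List ℕ)) : List (Lr k) :=
  fp i.1 ++ vp c (List.finRange m) i.2

lemma ix_pt {k m : ℕ} (c : Fin m → Fin k → ℕ) (s : Fin k → ℕ)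
    (i : List ℕ × (Fin m → ℕ × List ℕ)) : ix s (pt c i) = wdL (lf c s) i := by
  rw [pt, ix_append, ix_fp, ix_vp]
  rfl

lemma mem_vp {k m : ℕ} {c : Fin m → Fin k → ℕ} {is : List (Fin m)} {e : Fin m → ℕ × List ℕ}
    {u : Lr k} (hu : u ∈ vp c is e) : (∃ i ∈ is, u.2 = c i) ∨ ∃ i ∈ is, u.1 ∈ (e i).2 := by
  rw [vp, List.mem_flatMap] at hu
  obtain ⟨i, hi, hu⟩ := hu
  rcases List.mem_cons.1 hu with rfl | hu
  · exact Or.inl ⟨i, hi, rfl⟩
  · rw [fp, List.mem_map] at hu
    obtain ⟨b, hb, rfl⟩ := hu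
    exact Or.inr ⟨i, hi, hb⟩

lemma ge_pt {k m : ℕ} {c : Fin m → Fin k → ℕ} (hc : ∀ i, c i ≠ 0)
    {i : List ℕ × (Fin m → ℕ × List ℕ)} (h1 : i.1 = [] ∨ Ad i.1)
    (h2 : ∀ j, ∀ t ∈ (i.2 j).2, 1 ≤ t) : Ge (pt c i) := by
  obtain ⟨q, e⟩ := i
  simp only [pt] at *
  have hmem : ∀ u ∈ vp c (List.finRange m) e, u.2 ≠ 0 ∨ 1 ≤ u.1 := by
    intro u hu
    rcases mem_vp hu with ⟨j, _, h⟩ | ⟨j, _, h⟩
    · exact Or.inl (h ▸ hc j)
    · exact Or.inr (h2 j _ h)
  constructor
  · intro u hu
    cases q with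
    | nil =>
      have e0 : (fp [] : List (Lr k)) = [] := rfl
      rw [e0, List.nil_append] at hu
      cases hf : List.finRange m with
      | nil =>
        rw [hf] at hu
        exact absurd hu (by simp [vp])
      | cons j js =>
        rw [hf, vp_cons] at hu
        simp only [List.head?_cons, Option.mem_some_iff] at hu
        rw [← hu]
        exact Or.inl (hc j)
    | cons b q =>
      have : u = (b, 0) := by
        simp only [fp, List.map_cons, List.cons_append, List.head?_cons,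
          Option.mem_some_iff] at hu
        exact hu.symm
      rw [this]
      exact Or.inr (h1.resolve_left (List.cons_ne_nil _ _)).1
  · intro u hu
    rw [List.mem_append, fp, List.mem_map] at hu
    rcases hu with ⟨b, hb, rfl⟩ | hu
    · right
      rcases h1 with rfl | h1
      · exact absurd hb List.not_mem_nil
      · exact h1.pos b hb
    · exact hmem u hu

/-- **the relations between the values with several large arguments** -/
theorem core (k m : ℕ) (c : Fin m → Fin k → ℕ) (hc : ∀ i, c i ≠ 0) (W κ : ℕ) :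
    ∃ (M : ℕ) (ii jj : Fin M → ↥(IF m W)) (cc : Fin M → ℤ),
    (∀ (A : Type) [CommRing A] (Z : List ℕ → A),
      (∀ u v, Ad u → Ad v → Z u * Z v = ((sti u v).map Z).sum) →
      ∀ s : Fin k → ℕ, (∀ j, 2 ≤ s j) → ∀ a : ↥(IF m W) → ℤ,
        ∑ i, (a i : A) * ex Z (wdL (lf c s) i.1) =
        ∑ j, ((a (ii j) * cc j : ℤ) : A) *
          (ex Z (jj j).1.1 * ex Z (vw (lf c s) (List.finRange m) (jj j).1.2))) ∧
    ∃ K : ℕ, ∀ C : ℝ, ∃ N0 : ℕ, ∀ N : ℕ, N0 ≤ N → ∀ B : Finset (Fin k → ℕ),
      (∀ s ∈ B, (∀ j, N ≤ s j ∧ s j ≤ κ * N) ∧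
        ∃ a : ↥(IF m W) → ℤ, (∀ i, |(a i : ℝ)| ≤ C ^ N) ∧
        ∑ i, (a i : ℝ) * mz (wdL (lf c s) i.1) = 0 ∧
        ∃ e : Fin m → ℕ × List ℕ, ∑ j with (jj j).1.2 = e,
          ((a (ii j) * cc j : ℤ) : ℝ) * mz (jj j).1.1 ≠ 0) → B.card ≤ K * N ^ (k - 1) := by
  classical
  set E := (IF m W).equivFin with hE
  have hI : ∀ i : ↥(IF m W), (i.1.1 = [] ∨ Ad i.1.1) ∧ (∀ j, ∀ t ∈ (i.1.2 j).2, 1 ≤ t) ∧
      i.1.1.sum + tot i.1.2 = W := fun i => mem_IF.1 i.2
  obtain ⟨M, idx, cc, p, v, hpv, hexp, K, hK⟩ := linS k (IF m W).card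
    (fun a => pt c (E.symm a).1) (fun a => ge_pt hc (hI _).1 (hI _).2.1) κ
  have h1 : ∀ j, ∃ e : Fin m → ℕ × List ℕ, (∀ i, ∀ t ∈ (e i).2, 1 ≤ t) ∧
      v j = vp c (List.finRange m) e := fun j => by
    refine struct (List.finRange m) (List.nodup_finRange m) (v j) (hpv j).2.2.1 ?_
    rw [(hpv j).2.2.2.1, pt, sk_append, sk_fp, List.nil_append, sk_vp hc]
  choose e he1 he2 using h1
  have hixv : ∀ (s : Fin k → ℕ) j, ix s (v j) = vw (lf c s) (List.finRange m) (e j) := by
    intro s j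
    rw [he2 j, ix_vp]
  have hwt : ∀ j, (p j).sum + tot (e j) = W := by
    intro j
    have h2 := (hpv j).2.2.2.2 fun _ => 0
    rw [hixv, ix_pt, wdL, List.sum_append, vw_sum', vw_sum'] at h2
    have h3 := (hI (E.symm (idx j))).2.2
    omega
  refine ⟨M, fun j => E.symm (idx j), fun j => ⟨(p j, e j), mem_IF.2 ⟨(hpv j).1, he1 j, hwt j⟩⟩,
    cc, ?_, K, ?_⟩
  · intro A _ Z hZ s hs a
    have h2 := hexp A Z hZ s hs fun b => a (E.symm b)
    simp only [ix_pt, hixv] at h2
    rw [← E.symm.sum_comp]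
    exact h2
  · intro C
    obtain ⟨N0, hN0⟩ := hK C
    refine ⟨N0 + W + 1, fun N hN B hB => ?_⟩
    refine hN0 N (by omega) B fun s hs => ?_
    obtain ⟨h3, a, h4, h5, e0, h6⟩ := hB s hs
    have hL : ∀ i, W < lf c s i := fun i => by
      have := lf_ge hc (fun j => (h3 j).1) i
      omega
    refine ⟨h3, fun b => a (E.symm b), fun b => h4 _, ?_, vw (lf c s) (List.finRange m) e0, ?_⟩
    · rw [← h5, ← E.symm.sum_comp]
      exact sum_congr rfl fun b _ => by rw [ix_pt]
    · have h7 : (univ.filter fun j => ix s (v j) = vw (lf c s) (List.finRange m) e0) =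
          univ.filter fun j => e j = e0 := by
        obtain ⟨j0, hj0⟩ : ∃ j, e j = e0 := by
          by_contra hcon
          push Not at hcon
          apply h6
          rw [filter_false_of_mem, sum_empty]
          rintro j - g1
          exact hcon j g1
        have hle : ∀ j, ∀ i, ∀ t ∈ (e j i).2, t ≤ W := by
          intro j i t ht
          have g1 : (e j i).1 + (e j i).2.sum ≤ tot (e j) :=
            single_le_sum (f := fun i => (e j i).1 + (e j i).2.sum) (fun _ _ => Nat.zero_le _)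
              (mem_univ i)
          have g2 := hwt j
          have g3 := le_of_mem_sum ht
          omega
        ext j
        rw [mem_filter, mem_filter, hixv]
        constructor
        · rintro ⟨-, g1⟩
          refine ⟨mem_univ _, ?_⟩
          rw [← hj0] at g1 ⊢
          have g2 := split_word hL (hle j) (hle j0) (List.finRange m) [] []
            (fun t ht => absurd ht List.not_mem_nil) (fun t ht => absurd ht List.not_mem_nil)
            (by rw [List.nil_append, List.nil_append]; exact g1)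
          exact funext fun i => g2.2 i (List.mem_finRange i)
        · rintro ⟨-, g1⟩
          exact ⟨mem_univ _, by rw [g1]⟩
      show ∑ j with ix s (v j) = vw (lf c s) (List.finRange m) e0, _ ≠ 0
      rw [h7]
      exact h6

end Pool.Agent.K6.H8.MZ
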