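import Pool.Agent.K6.H8.MZ.Rk

/-!
# The space spanned by the relations of bounded height
-/

set_option autoImplicit false

namespace Pool.Agent.K6.H8.MZ

open Finset
open Pool.Agent.Y760.ZG (mz)
open Pool.Agent.Y760.ZF (sti)
open Pool.Agent.X90.DB (Ad ix ex ex_nil ex_ne)
open Pool.Agent.X90.DC
open Pool.Agent.X90.DD
open Pool.Agent.X90.DE (le_of_mem_sum span_int na)

lemma le_part {m W : ℕ} {i : List ℕ × (Fin m → ℕ × List ℕ)} (hi : i ∈ IF m W) :
    (∀ t ∈ i.1, t ≤ W) ∧ ∀ j, ∀ t ∈ (i.2 j).2, t ≤ W := by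
  obtain ⟨-, -, h3⟩ := mem_IF.1 hi
  constructor
  · intro t ht
    have := le_of_mem_sum ht
    omega
  · intro j t ht
    have g1 : (i.2 j).1 + (i.2 j).2.sum ≤ tot i.2 :=
      single_le_sum (f := fun j => (i.2 j).1 + (i.2 j).2.sum) (fun _ _ => Nat.zero_le _)
        (mem_univ j)
    have g3 := le_of_mem_sum ht
    omega

lemma wd_inj {m W : ℕ} {L : Fin m → ℕ} (hL : ∀ i, W < L i) :
    Function.Injective fun i : ↥(IF m W) => wdL L i.1 := by
  intro i i' h
  have h1 := le_part i.2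
  have h2 := le_part i'.2
  obtain ⟨g1, g2⟩ := split_word hL h1.2 h2.2 (List.finRange m) i.1.1 i'.1.1 h1.1 h2.1 h
  ext1
  exact Prod.ext g1 (funext fun j => g2 j (List.mem_finRange j))

lemma vw_pos {m : ℕ} {L : Fin m → ℕ} (hL : ∀ i, 1 ≤ L i) {e : Fin m → ℕ × List ℕ}
    (he : ∀ j, ∀ t ∈ (e j).2, 1 ≤ t) (is : List (Fin m)) : ∀ a ∈ vw L is e, 1 ≤ a := by
  intro a ha
  rw [vw, List.mem_flatMap] at ha
  obtain ⟨i, -, ha⟩ := ha
  rcases List.mem_cons.1 ha with rfl | ha
  · have := hL i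
    omega
  · exact he i a ha

lemma wd_pos {m W : ℕ} {L : Fin m → ℕ} (hL : ∀ i, 1 ≤ L i) (i : ↥(IF m W)) :
    ∀ a ∈ wdL L i.1, 1 ≤ a := by
  intro a ha
  obtain ⟨h1, h2, h3⟩ := mem_IF.1 i.2
  rw [wdL, List.mem_append] at ha
  rcases ha with ha | ha
  · rcases h1 with h1 | h1
    · rw [h1] at ha
      exact absurd ha List.not_mem_nil
    · exact h1.pos a ha
  · exact vw_pos hL h2 _ a ha

/-- the word `w` contains letters at least `A_1, A_2, …` in this order -/
def Cn (A w : List ℕ) : Prop := ∃ t : List ℕ, t.Sublist w ∧ List.Forall₂ (· ≤ ·) A t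

/-- the indices of weight `∑ L i + W` with entries at least `L 0`, `L 1`, … in this order -/
def Fam {m : ℕ} (W : ℕ) (L : Fin m → ℕ) (w : List ℕ) : Prop :=
  (w = [] ∨ Ad w) ∧ w.sum = ∑ i, L i + W ∧ Cn (List.ofFn L) w

lemma cn_dec {m : ℕ} (L : Fin m → ℕ) (is : List (Fin m)) : is.Nodup → ∀ w t : List ℕ,
    t.Sublist w → List.Forall₂ (· ≤ ·) (is.map L) t →
      ∃ (p : List ℕ) (e : Fin m → ℕ × List ℕ), w = p ++ vw L is e := by
  classical
  induction is with
  | nil =>
    intro _ w t _ _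
    exact ⟨w, fun _ => (0, []), (List.append_nil w).symm⟩
  | cons i is ih =>
    intro hnd w t hs hf
    rw [List.nodup_cons] at hnd
    rw [List.map_cons, List.forall₂_cons_left_iff] at hf
    obtain ⟨a, t', ha, hf', rfl⟩ := hf
    rw [List.cons_sublist_iff] at hs
    obtain ⟨r1, r2, rfl, h1, h2⟩ := hs
    obtain ⟨x, y, rfl⟩ := List.append_of_mem h1
    obtain ⟨p', e', h3⟩ := ih hnd.2 (y ++ r2) t' (h2.trans (List.sublist_append_right _ _)) hf'
    refine ⟨x, Function.update e' i (a - L i, p'), ?_⟩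
    rw [vw_cons, Function.update_self]
    have h6 : vw L is (Function.update e' i (a - L i, p')) = vw L is e' := by
      refine vw_congr L fun j hj => Function.update_of_ne ?_ _ _
      rintro rfl
      exact hnd.1 hj
    rw [h6, ← h3]
    have h7 : a - L i + L i = a := by omega
    simp only [h7, List.append_assoc, List.cons_append]

lemma cn_vw {m : ℕ} (L : Fin m → ℕ) (e : Fin m → ℕ × List ℕ) (is : List (Fin m)) :
    (is.map fun i => (e i).1 + L i).Sublist (vw L is e) := by
  induction is with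
  | nil => exact List.Sublist.slnil
  | cons i is ih =>
    rw [vw_cons, List.map_cons]
    exact (ih.trans (List.sublist_append_right _ _)).cons_cons _

lemma fam_iff {m W : ℕ} {L : Fin m → ℕ} (hL : ∀ i, 2 ≤ L i) (w : List ℕ) :
    Fam W L w ↔ ∃ i : ↥(IF m W), w = wdL L i.1 := by
  constructor
  · rintro ⟨h1, h2, t, ht, h3⟩
    rw [List.ofFn_eq_map] at h3
    obtain ⟨p, e, rfl⟩ := cn_dec L _ (List.nodup_finRange m) w t ht h3
    have hpos : ∀ a ∈ p ++ vw L (List.finRange m) e, 1 ≤ a := by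
      rcases h1 with h1 | h1
      · rw [h1]
        simp
      · exact h1.pos
    have hp : p = [] ∨ Ad p := by
      rcases h1 with h1 | h1
      · exact Or.inl (List.append_eq_nil_iff.1 h1).1
      · exact ad_of_prefix h1
    rw [List.sum_append, vw_sum'] at h2
    refine ⟨⟨(p, e), mem_IF.2 ⟨hp, fun j a ha => hpos a (List.mem_append_right _ ?_), ?_⟩⟩, rfl⟩
    · rw [vw, List.mem_flatMap]
      exact ⟨j, List.mem_finRange j, List.mem_cons_of_mem _ ha⟩
    · simp only
      omega
  · rintro ⟨i, rfl⟩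
    obtain ⟨h1, h2, h3⟩ := mem_IF.1 i.2
    have h5 := wd_pos (L := L) (fun j => le_trans (by norm_num) (hL j)) i
    refine ⟨?_, ?_, (List.finRange m).map fun j => (i.1.2 j).1 + L j, ?_, ?_⟩
    · rcases h4 : i.1.1 with _ | ⟨b, q⟩
      · rw [wdL, h4, List.nil_append] at h5 ⊢
        cases hf : List.finRange m with
        | nil => exact Or.inl rfl
        | cons j js =>
          right
          rw [hf, vw_cons] at h5
          rw [vw_cons]
          refine ⟨?_, fun t ht => h5 t (List.mem_cons_of_mem _ ht)⟩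
          have := hL j
          omega
      · right
        rw [wdL, h4, List.cons_append] at h5 ⊢
        refine ⟨?_, fun t ht => h5 t (List.mem_cons_of_mem _ ht)⟩
        rw [h4] at h1
        exact (h1.resolve_left (List.cons_ne_nil _ _)).1
    · rw [wdL, List.sum_append, vw_sum']
      omega
    · rw [wdL]
      exact (cn_vw L i.1.2 _).trans (List.sublist_append_right _ _)
    · rw [List.ofFn_eq_map, List.forall₂_map_left_iff, List.forall₂_map_right_iff,
        List.forall₂_same]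
      intro j _
      omega

/-- **the expansion is injective** -/
lemma Ph_inj {k m W M : ℕ} {c : Fin m → Fin k → ℕ} (hc : ∀ i, c i ≠ 0)
    (ii jj : Fin M → ↥(IF m W)) (cc : Fin M → ℤ)
    (hexp : ∀ (A : Type) [CommRing A] (Z : List ℕ → A),
      (∀ u v, Ad u → Ad v → Z u * Z v = ((sti u v).map Z).sum) →
      ∀ s : Fin k → ℕ, (∀ j, 2 ≤ s j) → ∀ a : ↥(IF m W) → ℤ,
        ∑ i, (a i : A) * ex Z (wdL (lf c s) i.1) =
        ∑ j, ((a (ii j) * cc j : ℤ) : A) *
          (ex Z (jj j).1.1 * ex Z (vw (lf c s) (List.finRange m) (jj j).1.2))) :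
    Function.Injective (Ph ii jj cc) := by
  classical
  rw [← LinearMap.ker_eq_bot, LinearMap.ker_eq_bot']
  intro b hb
  obtain ⟨Δ, hΔ, a, ha⟩ := Pool.Agent.X90.DA.common_den b
  by_contra hne
  obtain ⟨i0, hi0⟩ : ∃ i, b i ≠ 0 := by
    by_contra h
    push Not at h
    exact hne (funext h)
  have ha0 : a i0 ≠ 0 := by
    intro h0
    have h1 := ha i0
    rw [h0, Int.cast_zero] at h1
    have hΔ' : (Δ : ℚ) ≠ 0 := by exact_mod_cast hΔ
    exact hi0 ((mul_eq_zero.1 h1).resolve_left hΔ')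
  have hPa : ∀ i, ∑ j with jj j = i, a (ii j) * cc j = 0 := by
    intro i
    have h1 : ∑ j with jj j = i, b (ii j) * cc j = 0 := congrFun hb i
    have h2 : ((∑ j with jj j = i, a (ii j) * cc j : ℤ) : ℚ) = Δ *
        ∑ j with jj j = i, b (ii j) * cc j := by
      push_cast
      rw [mul_sum]
      exact sum_congr rfl fun j _ => by rw [← ha (ii j)]; ring
    rw [h1, mul_zero] at h2
    exact_mod_cast h2
  set s : Fin k → ℕ := fun _ => W + 2 with hs
  have hL : ∀ i, W + 2 ≤ lf c s i := fun i => lf_ge hc (fun _ => le_rfl) i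
  have hinj := wd_inj (W := W) (L := lf c s) fun i => by
    have := hL i
    omega
  obtain ⟨ℓ, hℓ⟩ : ∃ ℓ : ℕ, ∀ i : ↥(IF m W), (wdL (lf c s) i.1).length ≤ ℓ :=
    ⟨∑ i : ↥(IF m W), (wdL (lf c s) i.1).length, fun i =>
      single_le_sum (f := fun i : ↥(IF m W) => (wdL (lf c s) i.1).length)
      (fun _ _ => Nat.zero_le _) (mem_univ i)⟩
  set d : List ℕ → ℤ := fun u => ∑ i with wdL (lf c s) i.1 = u, a i with hd
  have hdi : ∀ i, d (wdL (lf c s) i.1) = a i := by
    intro i
    have h1 : (univ.filter fun i' : ↥(IF m W) => wdL (lf c s) i'.1 = wdL (lf c s) i.1) = {i} := by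
      ext i'
      rw [mem_filter, mem_singleton]
      exact ⟨fun h => hinj h.2, fun h => ⟨mem_univ _, by rw [h]⟩⟩
    simp only [hd]
    rw [h1, sum_singleton]
  obtain ⟨ts, hts⟩ := words_indep ℓ (univ.image fun i : ↥(IF m W) => wdL (lf c s) i.1) d
    (fun x hx => by
      rw [mem_image] at hx
      obtain ⟨i, -, rfl⟩ := hx
      exact hℓ i) (fun x hx b hb => by
      rw [mem_image] at hx
      obtain ⟨i, -, rfl⟩ := hx
      exact wd_pos (fun j => le_trans (by omega) (hL j)) i b hb)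
    ⟨wdL (lf c s) i0.1, mem_image_of_mem _ (mem_univ _), by rw [hdi]; exact ha0⟩
  apply hts
  rw [sum_image fun i _ j _ h => hinj h]
  simp only [hdi]
  have h1 := hexp ℂ (Zt ts) (fun u v _ _ => Zt_mul ts u v) s (fun _ => Nat.le_add_left 2 W) a
  simp only [ex_Zt] at h1
  rw [h1, ← sum_fiberwise_of_maps_to (s := univ) (t := univ) (g := jj) (fun j _ => mem_univ _)]
  refine sum_eq_zero fun i _ => ?_
  have h2 : ∑ j with jj j = i, ((a (ii j) * cc j : ℤ) : ℂ) *
      (Zt ts (jj j).1.1 * Zt ts (vw (lf c s) (List.finRange m) (jj j).1.2)) =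
      ((∑ j with jj j = i, a (ii j) * cc j : ℤ) : ℂ) *
        (Zt ts i.1.1 * Zt ts (vw (lf c s) (List.finRange m) i.1.2)) := by
    push_cast
    rw [sum_mul]
    refine sum_congr rfl fun j hj => ?_
    rw [mem_filter] at hj
    rw [hj.2]
  rw [h2, hPa i, Int.cast_zero, zero_mul]

/-- the space spanned by the relations of height at most `H` between the values with large arguments -/
noncomputable def relS {m : ℕ} (W : ℕ) (L : Fin m → ℕ) (H : ℝ) : Submodule ℚ (List ℕ →₀ ℚ) :=
  Submodule.span ℚ {c | (∀ w ∈ c.support, Fam W L w) ∧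
    (∀ w, ∃ z : ℤ, c w = z ∧ |(z : ℝ)| ≤ H) ∧ c.sum (fun w x => (x : ℝ) * mz w) = 0}

/-- the map from the coefficients to the formal sums of words -/
noncomputable def En {m : ℕ} (W : ℕ) (L : Fin m → ℕ) : (↥(IF m W) → ℚ) →ₗ[ℚ] (List ℕ →₀ ℚ) :=
  Fintype.linearCombination ℚ (fun i : ↥(IF m W) => Finsupp.single (wdL L i.1) (1 : ℚ))

lemma En_apply {m : ℕ} (W : ℕ) (L : Fin m → ℕ) (c : ↥(IF m W) → ℚ) :
    En W L c = ∑ i, Finsupp.single (wdL L i.1) (c i) := by
  rw [En, Fintype.linearCombination_apply]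
  refine sum_congr rfl fun i _ => ?_
  rw [Finsupp.smul_single, smul_eq_mul, mul_one]

lemma En_wd {m W : ℕ} {L : Fin m → ℕ} (hL : ∀ i, W < L i) (c : ↥(IF m W) → ℚ)
    (i : ↥(IF m W)) : En W L c (wdL L i.1) = c i := by
  classical
  rw [En_apply, Finsupp.finsetSum_apply, sum_eq_single i]
  · rw [Finsupp.single_eq_same]
  · intro j _ hj
    rw [Finsupp.single_apply, if_neg]
    exact fun h => hj (wd_inj hL h)
  · intro h
    exact absurd (mem_univ _) h

lemma En_out {m W : ℕ} {L : Fin m → ℕ} (c : ↥(IF m W) → ℚ) {w : List ℕ}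
    (hw : ∀ i : ↥(IF m W), w ≠ wdL L i.1) : En W L c w = 0 := by
  classical
  rw [En_apply, Finsupp.finsetSum_apply]
  refine sum_eq_zero fun i _ => ?_
  rw [Finsupp.single_apply, if_neg fun h => hw i h.symm]

lemma En_inj {m W : ℕ} {L : Fin m → ℕ} (hL : ∀ i, W < L i) : Function.Injective (En W L) := by
  intro c d h
  funext i
  rw [← En_wd hL c i, h, En_wd hL d i]

lemma En_sum {m W : ℕ} {L : Fin m → ℕ} (c : ↥(IF m W) → ℚ) :
    (En W L c).sum (fun w x => (x : ℝ) * mz w) = ∑ i, (c i : ℝ) * mz (wdL L i.1) := by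
  classical
  rw [En_apply]
  rw [← Finsupp.sum_finsetSum_index (h := fun w x => ((x : ℚ) : ℝ) * mz w)]
  · refine sum_congr rfl fun i _ => ?_
    rw [Finsupp.sum_single_index]
    rw [Rat.cast_zero, zero_mul]
  · intro w
    rw [Rat.cast_zero, zero_mul]
  · intro w x y
    rw [Rat.cast_add, add_mul]

/-- **the dimension of the space of relations, for almost all tuples** -/
theorem main (k m : ℕ) (hk : 1 ≤ k) (c : Fin m → Fin k → ℕ) (hc : ∀ i, c i ≠ 0) (W κ : ℕ) :
    ∃ K : ℕ, ∀ C : ℝ, 1 < C → ∃ N0 : ℕ, ∀ N : ℕ, N0 ≤ N → ∀ B : Finset (Fin k → ℕ),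
    (∀ s ∈ B, (∀ j, N ≤ s j ∧ s j ≤ κ * N) ∧
      Module.finrank ℚ (relS W (lf c s) (C ^ (∑ j, s j))) +
      ∑ n ∈ range (W + 1), cV m (W - n) * Module.finrank ℚ (WS n) ≠
        ∑ n ∈ range (W + 1), cV m (W - n) * na n) → B.card ≤ K * N ^ (k - 1) := by
  classical
  obtain ⟨M, ii, jj, cc, hexp, K, hK⟩ := core k m c hc W κ
  refine ⟨K, fun C hC => ?_⟩
  set P := Ph ii jj cc with hP
  have hPinj : Function.Injective P := Ph_inj hc ii jj cc hexp
  set R := LinearMap.ker ((ev m W).comp P) with hR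
  have hrank := rank_rel P hPinj
  obtain ⟨H0, hH0, hspan⟩ := span_int R
  obtain ⟨N1, hN1⟩ : ∃ N1 : ℕ, ∀ k, N1 ≤ k → H0 ≤ C ^ k := by
    have h1 := (tendsto_pow_atTop_atTop_of_one_lt hC).eventually_ge_atTop H0
    rw [Filter.eventually_atTop] at h1
    exact h1
  obtain ⟨N0, hN0⟩ := hK (C ^ (k * κ))
  refine ⟨N0 + N1 + W + 2, fun N hN B hB => ?_⟩
  refine hN0 N (by omega) B fun s hs => ?_
  obtain ⟨hk1, hk3⟩ := hB s hs
  refine ⟨hk1, ?_⟩
  have hs2 : ∀ j, 2 ≤ s j := fun j => by
    have := (hk1 j).1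
    omega
  have hL : ∀ i, W < lf c s i := fun i => by
    have := lf_ge hc (fun j => (hk1 j).1) i
    omega
  have hL2 : ∀ i, 2 ≤ lf c s i := fun i => by
    have := lf_ge hc (fun j => (hk1 j).1) i
    omega
  have hsum1 : N ≤ ∑ j, s j := by
    have h1 := single_le_sum (f := s) (fun _ _ => Nat.zero_le _) (mem_univ (⟨0, hk⟩ : Fin k))
    exact (hk1 ⟨0, hk⟩).1.trans h1
  have hsum2 : ∑ j, s j ≤ k * κ * N := by
    calc ∑ j, s j ≤ ∑ _j : Fin k, κ * N := sum_le_sum fun j _ => (hk1 j).2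
      _ = k * κ * N := by rw [sum_const, card_univ, Fintype.card_fin, smul_eq_mul, mul_assoc]
  by_contra hcon
  push Not at hcon
  apply hk3
  rw [← hrank, add_left_inj]
  -- the two spaces
  have hval : ∀ (b : ↥(IF m W) → ℚ) (e : Fin m → ℕ × List ℕ),
      ∑ i : ↥(IF m W) with i.1.2 = e, (P b i : ℝ) * mz i.1.1 =
      ∑ j with (jj j).1.2 = e, ((b (ii j) * cc j : ℚ) : ℝ) * mz (jj j).1.1 := by
    intro b e
    rw [← sum_fiberwise_of_maps_to (s := univ.filter fun j => (jj j).1.2 = e)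
      (t := univ.filter fun i : ↥(IF m W) => i.1.2 = e) (g := jj) (fun j hj => by
        rw [mem_filter] at hj ⊢
        exact ⟨mem_univ _, hj.2⟩)]
    refine sum_congr rfl fun i hi => ?_
    rw [mem_filter] at hi
    rw [filter_filter]
    have h1 : (univ.filter fun j => ((jj j).1.2 = e) ∧ jj j = i) =
        univ.filter fun j => jj j = i := by
      ext j
      rw [mem_filter, mem_filter]
      constructor
      · rintro ⟨g1, -, g2⟩
        exact ⟨g1, g2⟩
      · rintro ⟨g1, g2⟩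
        refine ⟨g1, ?_, g2⟩
        rw [g2]
        exact hi.2
    rw [h1]
    have h2 : P b i = ∑ j with jj j = i, b (ii j) * cc j := rfl
    rw [h2]
    push_cast
    rw [sum_mul]
    refine sum_congr rfl fun j hj => ?_
    rw [mem_filter] at hj
    rw [hj.2]
  have hmemR : ∀ b : ↥(IF m W) → ℚ, b ∈ R ↔ ∀ e : Fin m → ℕ × List ℕ,
      ∑ j with (jj j).1.2 = e, ((b (ii j) * cc j : ℚ) : ℝ) * mz (jj j).1.1 = 0 := by
    intro b
    rw [hR, LinearMap.mem_ker]
    constructor
    · intro h e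
      by_cases hx : e ∈ XF m W
      · have h1 := congrArg Subtype.val (congrFun h ⟨e, hx⟩)
        have h2 : ∑ i : ↥(IF m W) with i.1.2 = e, (P b) i • mz i.1.1 = 0 := h1
        rw [← hval]
        rw [← h2]
        exact sum_congr rfl fun i _ => by rw [Rat.smul_def]
      · refine sum_eq_zero fun j hj => ?_
        rw [mem_filter] at hj
        exfalso
        apply hx
        have h1 := mem_IF.1 (jj j).2
        rw [← hj.2]
        exact mem_XF.2 ⟨h1.2.1, by omega⟩
    · intro h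
      funext x
      ext
      show ∑ i : ↥(IF m W) with i.1.2 = x.1, (P b) i • mz i.1.1 = 0
      rw [← h x.1, ← hval]
      exact sum_congr rfl fun i _ => by rw [Rat.smul_def]
  have hle1 : relS W (lf c s) (C ^ (∑ j, s j)) ≤ R.map (En W (lf c s)) := by
    rw [relS, Submodule.span_le]
    rintro b ⟨hb1, hb2, hb3⟩
    rw [SetLike.mem_coe, Submodule.mem_map]
    have hcE : En W (lf c s) (fun i => b (wdL (lf c s) i.1)) = b := by
      ext w
      by_cases hw : ∃ i : ↥(IF m W), w = wdL (lf c s) i.1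
      · obtain ⟨i, rfl⟩ := hw
        rw [En_wd hL]
      · push Not at hw
        rw [En_out _ hw]
        by_contra h0
        have h1 := hb1 w (Finsupp.mem_support_iff.2 fun h => h0 h.symm)
        rw [fam_iff hL2] at h1
        obtain ⟨i, hi⟩ := h1
        exact hw i hi
    refine ⟨fun i => b (wdL (lf c s) i.1), ?_, hcE⟩
    choose z hz1 hz2 using hb2
    rw [hmemR]
    by_contra hcon2
    push Not at hcon2
    obtain ⟨e, he⟩ := hcon2
    refine he ?_
    have h1 := hcon (fun i => z (wdL (lf c s) i.1)) (fun i => ?_) ?_ e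
    · rw [← h1]
      refine sum_congr rfl fun j _ => ?_
      rw [hz1]
      push_cast
      rfl
    · refine (hz2 _).trans ?_
      rw [← pow_mul]
      exact pow_le_pow_right₀ hC.le hsum2
    · have h1 := En_sum (L := lf c s) fun i : ↥(IF m W) => b (wdL (lf c s) i.1)
      rw [hcE, hb3] at h1
      rw [h1]
      refine sum_congr rfl fun i _ => ?_
      rw [hz1]
      push_cast
      rfl
  have hle2 : R.map (En W (lf c s)) ≤ relS W (lf c s) (C ^ (∑ j, s j)) := by
    refine (Submodule.map_mono hspan).trans ?_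
    rw [Submodule.map_span, Submodule.span_le]
    rintro _ ⟨b, ⟨hbR, hbz⟩, rfl⟩
    have hH : H0 ≤ C ^ (∑ j, s j) := hN1 _ (by omega)
    refine Submodule.subset_span ⟨fun w hw => ?_, fun w => ?_, ?_⟩
    · by_contra h0
      rw [fam_iff hL2] at h0
      push Not at h0
      rw [Finsupp.mem_support_iff] at hw
      exact hw (En_out b h0)
    · by_cases hw : ∃ i : ↥(IF m W), w = wdL (lf c s) i.1
      · obtain ⟨i, rfl⟩ := hw
        obtain ⟨z, hz1, hz2⟩ := hbz i
        exact ⟨z, by rw [En_wd hL, hz1], hz2.trans hH⟩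
      · push Not at hw
        exact ⟨0, by rw [En_out b hw, Int.cast_zero], by
          rw [Int.cast_zero, abs_zero]
          exact hH0.trans hH⟩
    · rw [En_sum]
      choose z hz1 hz2 using hbz
      have h1 := hexp ℝ mz mz_stuffle s hs2 z
      have hexR : ∀ u, ex mz u = mz u := by
        intro u
        by_cases h : u = []
        · rw [h, ex_nil, mz]
        · rw [ex_ne _ h]
      simp only [hexR] at h1
      have h2 : ∑ i : ↥(IF m W), (b i : ℝ) * mz (wdL (lf c s) i.1) =
          ∑ i : ↥(IF m W), (z i : ℝ) * mz (wdL (lf c s) i.1) :=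
        sum_congr rfl fun i _ => by rw [hz1 i, Rat.cast_intCast]
      rw [h2, h1]
      rw [hmemR] at hbR
      rw [← sum_fiberwise_of_maps_to (s := univ)
        (t := univ.image fun j => (jj j).1.2)
        (g := fun j => (jj j).1.2) (fun j _ => mem_image_of_mem _ (mem_univ j))]
      refine sum_eq_zero fun x _ => ?_
      have h3 : ∑ j with (jj j).1.2 = x, ((z (ii j) * cc j : ℤ) : ℝ) *
          (mz (jj j).1.1 * mz (vw (lf c s) (List.finRange m) (jj j).1.2)) =
          (∑ j with (jj j).1.2 = x,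
            ((b (ii j) * cc j : ℚ) : ℝ) * mz (jj j).1.1) *
            mz (vw (lf c s) (List.finRange m) x) := by
        rw [sum_mul]
        refine sum_congr rfl fun j hj => ?_
        rw [mem_filter] at hj
        rw [hj.2, hz1]
        push_cast
        ring
      rw [h3, hbR, zero_mul]
  rw [le_antisymm hle1 hle2]
  exact (LinearEquiv.finrank_eq (Submodule.equivMapOfInjective _ (En_inj hL) R)).symm

end Pool.Agent.K6.H8.MZ
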