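import Pool.Agent.K6.H8.MZ.Core
import Pool.Agent.X90.DE.Rk

/-!
# The space of relations
-/

set_option autoImplicit false

namespace Pool.Agent.K6.H8.MZ

open Finset
open Pool.Agent.Y760.ZG (mz)
open Pool.Agent.Y760.ZF (sti)
open Pool.Agent.X90.DB (Ad ix ex ex_nil ex_ne)
open Pool.Agent.X90.DC
open Pool.Agent.X90.DD
open Pool.Agent.X90.DE (mz_mem na)

/-- the coefficients of the expansion -/
def Ph {m W M : ℕ} (ii jj : Fin M → ↥(IF m W)) (cc : Fin M → ℤ) :
    (↥(IF m W) → ℚ) →ₗ[ℚ] (↥(IF m W) → ℚ) where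
  toFun c i := ∑ j with jj j = i, c (ii j) * cc j
  map_add' c d := by
    funext i
    simp only [Pi.add_apply, add_mul, sum_add_distrib]
  map_smul' a c := by
    funext i
    simp only [Pi.smul_apply, smul_eq_mul, RingHom.id_apply, mul_sum, mul_assoc]

/-- the values of the coefficients -/
noncomputable def ev (m W : ℕ) :
    (↥(IF m W) → ℚ) →ₗ[ℚ] ((x : ↥(XF m W)) → ↥(WS (W - tot x.1))) where
  toFun g x := ⟨∑ i with i.1.2 = x.1, g i • mz i.1.1,
    Submodule.sum_mem _ fun i hi => Submodule.smul_mem _ _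
      (mz_mem (mem_IF.1 i.2).1 (by
        have h1 := (mem_IF.1 i.2).2.2
        rw [(mem_filter.1 hi).2] at h1
        omega))⟩
  map_add' c d := by
    funext x
    ext
    simp only [Pi.add_apply, add_smul, sum_add_distrib, Submodule.coe_add]
  map_smul' a c := by
    funext x
    ext
    simp only [Pi.smul_apply, smul_eq_mul, RingHom.id_apply, smul_sum, mul_smul,
      SetLike.val_smul]

lemma ev_surj (m W : ℕ) : Function.Surjective (ev m W) := by
  classical
  intro z
  have h1 : ∀ x : ↥(XF m W), ∃ l : List ℕ →₀ ℚ, l ∈ Finsupp.supported ℚ ℚ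
      {p : List ℕ | (p = [] ∨ Ad p) ∧ p.sum = W - tot x.1} ∧
      Finsupp.linearCombination ℚ mz l = z x := by
    intro x
    have h2 : (z x : ℝ) ∈ Submodule.span ℚ
      (mz '' {p | (p = [] ∨ Ad p) ∧ p.sum = W - tot x.1}) := (z x).2
    rw [Finsupp.mem_span_image_iff_linearCombination] at h2
    exact h2
  choose l hl1 hl2 using h1
  have hX : ∀ i : ↥(IF m W), i.1.2 ∈ XF m W := fun i =>
    mem_XF.2 ⟨(mem_IF.1 i.2).2.1, by
      have := (mem_IF.1 i.2).2.2
      omega⟩
  refine ⟨fun i => l ⟨i.1.2, hX i⟩ i.1.1, ?_⟩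
  funext x
  ext
  show ∑ i : ↥(IF m W) with i.1.2 = x.1, l ⟨i.1.2, hX i⟩ i.1.1 • mz i.1.1 = z x
  rw [← hl2 x, Finsupp.linearCombination_apply, Finsupp.sum]
  symm
  refine sum_bij_ne_zero (fun p hp _ => ⟨(p, x.1), ?_⟩) ?_ ?_ ?_ ?_
  · have h2 := (Finsupp.mem_supported ℚ _).1 (hl1 x) hp
    have h3 := mem_XF.1 x.2
    refine mem_IF.2 ⟨h2.1, h3.1, ?_⟩
    show p.sum + tot x.1 = W
    have h4 := h2.2
    omega
  · intro p hp _
    exact mem_filter.2 ⟨mem_univ _, rfl⟩
  · intro p hp _ p' hp' _ h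
    exact congrArg Prod.fst (congrArg Subtype.val h)
  · intro i hi hne
    rw [mem_filter] at hi
    have hx : (⟨i.1.2, hX i⟩ : ↥(XF m W)) = x := by
      ext1
      exact hi.2
    rw [hx] at hne
    have hs : i.1.1 ∈ (l x).support := by
      rw [Finsupp.mem_support_iff]
      intro h0
      apply hne
      rw [h0, zero_smul]
    refine ⟨i.1.1, hs, hne, ?_⟩
    ext1
    exact Prod.ext rfl hi.2.symm
  · intro p hp _
    rfl

/-- **the dimension of the space of relations** -/
theorem rank_rel {m W : ℕ} (P : (↥(IF m W) → ℚ) →ₗ[ℚ] (↥(IF m W) → ℚ))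
    (hP : Function.Injective P) :
    Module.finrank ℚ (LinearMap.ker ((ev m W).comp P)) +
      ∑ n ∈ range (W + 1), cV m (W - n) * Module.finrank ℚ (WS n) =
    ∑ n ∈ range (W + 1), cV m (W - n) * na n := by
  classical
  have h1 : Function.Surjective ((ev m W).comp P) := by
    rw [LinearMap.coe_comp]
    exact (ev_surj m W).comp (LinearMap.surjective_of_injective hP)
  have h2 := LinearMap.finrank_range_add_finrank_ker ((ev m W).comp P)
  rw [LinearMap.range_eq_top.2 h1, finrank_top, Module.finrank_pi_fintype,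
    Module.finrank_fintype_fun_eq_card, Fintype.card_coe, card_IF] at h2
  rw [← h2, ← sum_XF m W fun n => Module.finrank ℚ (WS n), add_comm]
  congr 1
  rw [← sum_coe_sort (XF m W)]

end Pool.Agent.K6.H8.MZ
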